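import Pool.Agent.Helper72.LSr.NumDef
import Pool.Agent.Helper85.LS.Num

/-!
# Numerical lemmas of section 7 in the form `NumH` (pieces LR-F1 .. LR-F4)
-/

namespace Pool.Agent.Helper85.LSr

open Pool.Agent.Helper72.LSr

variable {k M X D Y ρ mm : ℤ}

theorem two_le_k (h : NumH k M X D Y ρ mm) : 2 ≤ k := by
  obtain ⟨hk, hD, hX, hY, hε, hcase, hm, hZ, hJ⟩ := h
  by_contra hk2
  have hk1 : k = 1 := by omega
  subst hk1
  rcases hcase with ⟨h1, h2⟩ | ⟨h1, h2⟩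
  · have : max (-ρ) 0 = 0 := max_eq_right (by omega)
    omega
  · have : max (-ρ) 0 = -ρ := max_eq_left (by omega)
    omega

theorem toNum (h : NumH k M X D Y ρ mm) :
    Pool.Agent.Helper85.LS.Num k D X Y (D - Y) ρ (max (-ρ) 0) mm := by
  have hk2 := two_le_k h
  obtain ⟨hk, hD, hX, hY, hε, hcase, hm, hZ, hJ⟩ := h
  refine ⟨hk2, hX, by ring, le_max_right _ _, hY, by omega, hm, by omega, ?_, by omega⟩
  rcases hcase with ⟨h1, h2⟩ | ⟨h1, h2⟩
  · exact Or.inl ⟨h1, max_eq_right (by omega), by omega⟩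
  · exact Or.inr ⟨h1, max_eq_left (by omega), by omega⟩

theorem far1 (h : NumH k M X D Y ρ mm) (Du : ℤ) (hDu : M + 2 ≤ 2 * Du) :
    (k + 1) * (Y * (D - Y - ρ - mm) - max (-ρ) 0 * D) ≤ (k + 1) * Y * Du + k * (Du - 1) * D := by
  have h1 := (toNum h).far1 (Du := Du) (by have := h.hD; omega)
  linarith

theorem far2 (h : NumH k M X D Y ρ mm) (Du : ℤ) (hDu : M + 1 ≤ Du) :
    (k + 1) * (Y * (D - Y - ρ - mm) - max (-ρ) 0 * D) ≤ (k + 1) * Y * Du + k * (Du - 2) * D := by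
  have h1 := (toNum h).far2 (Du := Du) (by have := h.hD; omega)
  linarith

theorem c3 (h : NumH k M X D Y ρ mm) :
    (k + 1) * (Y * (D - Y - ρ - mm) - max (-ρ) 0 * D) ≤ k * D * (D - Y) :=
  (toNum h).c3

theorem xm1 (h : NumH k M X D Y ρ mm)
    (h0 : 0 < k * X * Y * D + (2 * k + 3) * Y * (D - Y - ρ - mm) - (3 * k + 3) * max (-ρ) 0 * D) :
    -1 ≤ X :=
  (toNum h).xm1 (by linarith)

theorem nc4 (h : NumH k M X D Y ρ mm) (hX : -1 ≤ X) :
    k * D * (k + 1 - D) +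
      (k * X * Y * D + (2 * k + 3) * Y * (D - Y - ρ - mm) - (3 * k + 3) * max (-ρ) 0 * D)
      ≤ k * D * (4 * (D - Y) + 1) := by
  have := (toNum h).nc4 hX
  linarith

theorem fF (h : NumH k M X D Y ρ mm) (_hX : -1 ≤ X) :
    k * X * Y * D + 3 * (k + 1) * Y * (D - Y - ρ - mm) - (4 * k + 3) * max (-ρ) 0 * D
      ≤ k * (D - 1) * D := by
  have := (toNum h).F
  linarith

theorem h1 (h : NumH k M X D Y ρ mm) (hX : X = 1) :
    (2 * k + 3) * Y * (D - Y - ρ - mm) - (3 * k + 3) * max (-ρ) 0 * D ≤ k * (D - Y - 1) * D := by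
  subst hX
  have := (toNum h).h1
  linarith

theorem h2 (h : NumH k M X D Y ρ mm) (hX : X = 1) :
    k * Y * D + (2 * k + 3) * Y * (D - Y - ρ - mm) - (3 * k + 3) * max (-ρ) 0 * D
      ≤ 2 * k * D * (D - Y) := by
  subst hX
  have := (toNum h).h2
  linarith

theorem h3 (h : NumH k M X D Y ρ mm) (hX : X = 1) :
    k * D * (k + 1 - D) +
      (k * Y * D + (2 * k + 3) * Y * (D - Y - ρ - mm) - (3 * k + 3) * max (-ρ) 0 * D)
      ≤ k * D * (2 * (D - Y) + 1) := by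
  subst hX
  have := (toNum h).h3
  linarith

theorem mm_le (h : NumH k M X D Y ρ mm) : mm ≤ k :=
  (toNum h).m_le

end Pool.Agent.Helper85.LSr
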