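import Pool.Agent.Helper72.LSr.FDef
import Pool.Agent.Helper72.LSr.N1
import Pool.Agent.Helper72.LSr.C0

/-!
LR-E2: join with an independent set.
-/

namespace Pool.Agent.Helper85.LSr

open Finset
open scoped Classical
open Pool.Agent.Helper72.LSr

/-- join with an independent set of size `s` -/
def E2_join {V : Type} (G : SimpleGraph V) (s : ℕ) : SimpleGraph (V ⊕ Fin s) where
  Adj u v := match u, v with
    | Sum.inl x, Sum.inl y => G.Adj x y
    | Sum.inl _, Sum.inr _ => True
    | Sum.inr _, Sum.inl _ => True
    | Sum.inr _, Sum.inr _ => False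
  symm := ⟨by
    intro u v h
    rcases u with u | u <;> rcases v with v | v
    · exact SimpleGraph.Adj.symm (G := G) h
    · exact h
    · exact h
    · exact h⟩
  loopless := ⟨by
    intro u h
    rcases u with u | u
    · exact G.loopless.irrefl u h
    · exact h⟩

theorem E2_ll {V : Type} (G : SimpleGraph V) (s : ℕ) (x y : V) :
    (E2_join G s).Adj (Sum.inl x) (Sum.inl y) ↔ G.Adj x y := Iff.rfl

theorem E2_lr {V : Type} (G : SimpleGraph V) (s : ℕ) (x : V) (j : Fin s) :
    (E2_join G s).Adj (Sum.inl x) (Sum.inr j) := trivial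

theorem E2_rl {V : Type} (G : SimpleGraph V) (s : ℕ) (x : V) (j : Fin s) :
    (E2_join G s).Adj (Sum.inr j) (Sum.inl x) := trivial

theorem E2_rr {V : Type} (G : SimpleGraph V) (s : ℕ) (i j : Fin s) :
    ¬ (E2_join G s).Adj (Sum.inr i) (Sum.inr j) := fun h => h

theorem E2_K_map {V W : Type} (G : SimpleGraph V) (Γ : SimpleGraph W) (f : V ↪ W)
    (hf : ∀ x y, Γ.Adj (f x) (f y) ↔ G.Adj x y) (S : Finset V) (r : ℕ) :
    K Γ (S.map f) r = K G S r := by
  unfold K
  rw [powersetCard_map, filter_map, card_map]
  congr 2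
  refine filter_congr fun t _ => ?_
  simp only [Function.comp, RelEmbedding.coe_toEmbedding, mapEmbedding_apply, coe_map]
  constructor
  · intro h x hx y hy hxy
    exact (hf x y).1 (h (Set.mem_image_of_mem _ hx) (Set.mem_image_of_mem _ hy)
      fun h' => hxy (f.injective h'))
  · rintro h _ ⟨x, hx, rfl⟩ _ ⟨y, hy, rfl⟩ hxy
    exact (hf x y).2 (h hx hy fun h' => hxy (by rw [h']))

theorem E2_K {V : Type} [Fintype V] (G : SimpleGraph V) (s r : ℕ) (T : Finset (Fin s)) :
    K (E2_join G s) ((univ : Finset V).disjSum T) (r + 1) =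
      K G univ (r + 1) + T.card * K G univ r := by
  have hm : ∀ r, K (E2_join G s) ((univ : Finset V).map Function.Embedding.inl) r =
      K G univ r := fun r =>
    E2_K_map G (E2_join G s) Function.Embedding.inl (fun x y => Iff.rfl) univ r
  induction T using Finset.induction_on with
  | empty =>
    have h1 : (univ : Finset V).disjSum (∅ : Finset (Fin s)) =
        (univ : Finset V).map Function.Embedding.inl := by
      ext x
      rcases x with x | x <;> simp
    rw [h1, hm]
    simp
  | insert j T hj ih =>
    have h1 : (univ : Finset V).disjSum (insert j T) =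
        insert (Sum.inr j) ((univ : Finset V).disjSum T) := by
      ext x
      rcases x with x | x <;> simp
    have h2 : (Sum.inr j : V ⊕ Fin s) ∉ (univ : Finset V).disjSum T := by
      simpa using hj
    have h3 : nb (E2_join G s) ((univ : Finset V).disjSum T) (Sum.inr j) =
        (univ : Finset V).map Function.Embedding.inl := by
      ext x
      rw [mem_nb]
      rcases x with x | x
      · simp [E2_rl]
      · simp [E2_rr]
    have h4 := K_insert (E2_join G s) h2 r
    have h5 : K (E2_join G s) ((univ : Finset V).disjSum (insert j T)) (r + 1) =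
        K (E2_join G s) ((univ : Finset V).disjSum T) (r + 1) +
        K (E2_join G s) (nb (E2_join G s) ((univ : Finset V).disjSum T) (Sum.inr j)) r := by
      rw [h1]
      convert h4
    rw [h5, ih, h3, hm, card_insert_of_notMem hj]
    push_cast
    ring

theorem form_join {V : Type} [Fintype V] (G : SimpleGraph V) (hG : PartiteForm G) (s : ℕ)
    (hs : 1 ≤ s) :
    ∃ (W : Type) (_ : Fintype W) (Γ : SimpleGraph W), Fintype.card W = Fintype.card V + s ∧
      (∀ r, K Γ univ (r + 1) = K G univ (r + 1) + s * K G univ r) ∧ PartiteForm Γ := by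
  refine ⟨V ⊕ Fin s, inferInstance, E2_join G s, by simp, fun r => ?_, ?_⟩
  · have h := E2_K G s r univ
    rw [univ_disjSum_univ, card_univ, Fintype.card_fin] at h
    exact h
  obtain ⟨K, c, i, hsurj, hadj, hin, hcf⟩ := hG
  refine ⟨K + 1, Sum.elim (fun x => Fin.castSucc (c x)) (fun _ => Fin.last K),
    Fin.castSucc i, ?_, ?_, ?_, ?_⟩
  · intro y
    refine Fin.lastCases ?_ (fun y => ?_) y
    · exact ⟨Sum.inr ⟨0, hs⟩, rfl⟩
    · obtain ⟨x, hx⟩ := hsurj y
      exact ⟨Sum.inl x, by simp [hx]⟩
  · intro u v huv
    rcases u with u | u <;> rcases v with v | v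
    · refine hadj u v fun h => huv ?_
      simp [h]
    · exact E2_lr G s u v
    · exact E2_rl G s v u
    · exact absurd rfl huv
  · intro u v huv hc
    rcases u with u | u <;> rcases v with v | v
    · have h1 : c u = c v := by simpa using hc
      have h2 := hin u v huv h1
      simp [h2]
    · simp only [Sum.elim_inl, Sum.elim_inr] at hc
      exact absurd hc (Fin.castSucc_lt_last _).ne
    · simp only [Sum.elim_inl, Sum.elim_inr] at hc
      exact absurd hc (Fin.castSucc_lt_last _).ne'
    · exact absurd huv (E2_rr G s u v)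
  · intro t ht
    rw [SimpleGraph.is3Clique_iff] at ht
    obtain ⟨x, y, z, hxy, hxz, hyz, -⟩ := ht
    have key : ∀ w : {v | Sum.elim (fun x => Fin.castSucc (c x)) (fun _ : Fin s => Fin.last K) v
        = Fin.castSucc i}, ∃ w' : {v | c v = i}, w.1 = Sum.inl w'.1 := by
      rintro ⟨w, hw⟩
      rcases w with w | w
      · have h1 : c w = i := by simpa using hw
        exact ⟨⟨w, h1⟩, rfl⟩
      · have h1 : Fin.last K = Fin.castSucc i := hw
        exact absurd h1 (Fin.castSucc_lt_last _).ne'
    obtain ⟨x', hx'⟩ := key x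
    obtain ⟨y', hy'⟩ := key y
    obtain ⟨z', hz'⟩ := key z
    have hxy' : G.Adj x'.1 y'.1 := by
      have h : (E2_join G s).Adj x.1 y.1 := hxy
      rw [hx', hy'] at h
      exact h
    have hxz' : G.Adj x'.1 z'.1 := by
      have h : (E2_join G s).Adj x.1 z.1 := hxz
      rw [hx', hz'] at h
      exact h
    have hyz' : G.Adj y'.1 z'.1 := by
      have h : (E2_join G s).Adj y.1 z.1 := hyz
      rw [hy', hz'] at h
      exact h
    refine hcf {x', y', z'} ?_
    rw [SimpleGraph.is3Clique_iff]
    exact ⟨x', y', z', hxy', hxz', hyz', rfl⟩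

end Pool.Agent.Helper85.LSr
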